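import Pool.Agent.QPI.Stmts

/-!
Row B_WDG of the table `qpi`: degree bound of the Wronskian.
-/

set_option autoImplicit false

namespace Pool.Agent.QPI.H62

open Pool.Agent.QPI

variable {S : Type} [CommRing S]

theorem pd_zero (d : ℕ) : PD (0 : PowerSeries S) d := fun _ _ => by simp

theorem pd_sum (hP : PdcStmt) {α : Type} (s : Finset α) (g : α → PowerSeries S) (d : ℕ)
    (h : ∀ i ∈ s, PD (g i) d) : PD (∑ i ∈ s, g i) d := by
  classical
  induction s using Finset.induction_on with
  | empty => simpa using pd_zero d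
  | insert i s hi ih =>
    rw [Finset.sum_insert hi]
    exact (hP S _ _ d d).1 (h i (Finset.mem_insert_self i s))
      (ih fun j hj => h j (Finset.mem_insert_of_mem hj))

theorem pd_prod (hP : PdcStmt) {α : Type} (s : Finset α) (g : α → PowerSeries S) (d : ℕ)
    (h : ∀ i ∈ s, PD (g i) d) : PD (∏ i ∈ s, g i) (s.card * d) := by
  classical
  induction s using Finset.induction_on with
  | empty => simpa using (hP S 0 0 0 0).2.2.2.2.2
  | insert i s hi ih =>
    rw [Finset.prod_insert hi, Finset.card_insert_of_notMem hi, add_mul, one_mul, add_comm]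
    exact (hP S _ _ d (s.card * d)).2.1 (h i (Finset.mem_insert_self i s))
      (ih fun j hj => h j (Finset.mem_insert_of_mem hj))

theorem pd_det (hP : PdcStmt) {s : ℕ} (M : Matrix (Fin s) (Fin s) (PowerSeries S)) (d : ℕ)
    (h : ∀ a b, PD (M a b) d) : PD (Matrix.det M) (s * d) := by
  rw [Matrix.det_apply']
  refine pd_sum hP _ _ _ fun σ _ => ?_
  have h1 : PD (∏ i, M (σ i) i) (s * d) := by
    have h2 := pd_prod hP Finset.univ (fun i => M (σ i) i) d fun i _ => h _ _
    rwa [Finset.card_univ, Fintype.card_fin] at h2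
  rcases Int.units_eq_one_or (Equiv.Perm.sign σ) with hσ | hσ
  · rw [hσ]
    simpa using h1
  · rw [hσ]
    simpa using (hP S _ 0 (s * d) 0).2.2.2.1 h1

theorem b_wdg (hP : PdcStmt) (hA : PahStmt) : WdgStmt := by
  intro S τ _ k m ρ δ s R f e t hf hfd hR hs hμ
  set H : PowerSeries S := ∏ j, f j with hH
  set N : ℕ := (k + 1) * (ρ + k * (m * δ)) with hN
  have hdet : Matrix.det (Matrix.of fun a b : Fin s =>
      H ^ (a : ℕ) * Pa (dlog f (e (t b))) (R (t b)) a)
      = (∏ a : Fin s, H ^ (a : ℕ)) * WW R f e t := by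
    unfold WW
    exact Matrix.det_mul_column (fun a : Fin s => H ^ (a : ℕ)) _
  have hpd : PD ((∏ a : Fin s, H ^ (a : ℕ)) * WW R f e t) N := by
    rw [← hdet]
    have h1 := pd_det hP (Matrix.of fun a b : Fin s =>
      H ^ (a : ℕ) * Pa (dlog f (e (t b))) (R (t b)) a) (ρ + k * (m * δ)) fun a b => by
        rw [Matrix.of_apply]
        have ha : (a : ℕ) ≤ k := by have := a.isLt; omega
        exact (hP S _ 0 _ _).2.2.2.2.1 (Nat.add_le_add_left (Nat.mul_le_mul_right _ ha) _)
          (hA S m ρ δ f (e (t b)) (R (t b)) hf hfd (hR (t b)) a)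
    exact (hP S _ 0 _ _).2.2.2.2.1 (Nat.mul_le_mul_right _ hs) h1
  have hzero : (∏ a : Fin s, H ^ (a : ℕ)) * WW R f e t = 0 := by
    ext n
    rw [map_zero]
    by_cases hn : N < n
    · exact hpd n hn
    · rw [PowerSeries.coeff_mul]
      refine Finset.sum_eq_zero fun q hq => ?_
      have hq2 : q.2 ≤ N := by
        have := Finset.HasAntidiagonal.mem_antidiagonal.1 hq
        omega
      rw [hμ q.2 hq2, mul_zero]
  have hunit : IsUnit (∏ a : Fin s, H ^ (a : ℕ)) := by
    rw [PowerSeries.isUnit_iff_constantCoeff]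
    have h1 : PowerSeries.constantCoeff (∏ a : Fin s, H ^ (a : ℕ)) = 1 := by
      rw [map_prod]
      refine Finset.prod_eq_one fun a _ => ?_
      rw [map_pow, hH, map_prod, Finset.prod_eq_one fun j _ => hf j, one_pow]
    rw [h1]
    exact isUnit_one
  exact (hunit.mul_right_eq_zero).1 hzero

end Pool.Agent.QPI.H62
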